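import Mathlib

set_option autoImplicit false

namespace Pool.Agent.Results.MP_880652_co.Main

/-- The number `k` of comparable pairs of a poset on `Fin n`. -/
noncomputable def numPairs {n : ℕ} (P : PartialOrder (Fin n)) : ℕ :=
  Nat.card {p : Fin n × Fin n // P.lt p.1 p.2}

/-- A linear order `L` of the ground set is encoded by the bijection `σ` sending each element to
its position: `x` precedes `y` iff `σ x < σ y`.  This is the number of comparable pairs
`x <_P y` that agree with it. -/
noncomputable def agreeCount {n : ℕ} (P : PartialOrder (Fin n)) (σ : Equiv.Perm (Fin n)) : ℕ :=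
  Nat.card {p : Fin n × Fin n // P.lt p.1 p.2 ∧ σ p.1 < σ p.2}

/-- `a_i(P)`: the number of linear orders agreeing with exactly `i` comparable pairs. -/
noncomputable def a {n : ℕ} (P : PartialOrder (Fin n)) (i : ℕ) : ℕ :=
  Nat.card {σ : Equiv.Perm (Fin n) // agreeCount P σ = i}

/-- The sequence `c_0, ..., c_k` is unimodal. -/
def Unimodal (c : ℕ → ℕ) (k : ℕ) : Prop :=
  ∃ j ≤ k, (∀ i, i < j → c i ≤ c (i + 1)) ∧ ∀ i, j ≤ i → i < k → c (i + 1) ≤ c i

/-! ### enumeration of permutations -/

/-- All injective value lists. -/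
def gen : ℕ → List ℕ → List (List ℕ)
  | 0, acc => [acc]
  | m + 1, acc => ((List.range 7).filter (fun v => !acc.contains v)).flatMap
      (fun v => gen m (v :: acc))

/-- The first `t` values of `v`, in reverse order. -/
def pre (v : ℕ → ℕ) (t : ℕ) : List ℕ := ((List.range t).map v).reverse

theorem pre_succ (v : ℕ → ℕ) (t : ℕ) : pre v (t + 1) = v t :: pre v t := by
  simp [pre, List.range_succ]

theorem mem_pre (v : ℕ → ℕ) (t x : ℕ) : x ∈ pre v t ↔ ∃ s < t, v s = x := by
  simp [pre]

theorem mem_gen (v : ℕ → ℕ) (hv : ∀ s, s < 7 → v s < 7)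
    (hinj : ∀ s t, s < 7 → t < 7 → v s = v t → s = t) :
    ∀ m t, t + m = 7 → pre v 7 ∈ gen m (pre v t) := by
  intro m
  induction m with
  | zero => intro t ht; rw [Nat.add_zero] at ht; subst ht; simp [gen]
  | succ m ih =>
    intro t ht
    unfold gen
    rw [List.mem_flatMap]
    refine ⟨v t, ?_, ?_⟩
    · rw [List.mem_filter]
      refine ⟨List.mem_range.2 (hv t (by omega)), ?_⟩
      rw [Bool.not_eq_true', ← Bool.not_eq_true]
      intro hc
      rw [List.contains_iff_mem, mem_pre] at hc
      obtain ⟨s, hs, hst⟩ := hc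
      have := hinj s t (by omega) (by omega) hst
      omega
    · rw [← pre_succ]
      exact ih (t + 1) (by omega)

/-- The values of a permutation. -/
def vals (σ : Equiv.Perm (Fin 7)) (m : ℕ) : ℕ := (σ (Fin.ofNat 7 m)).val

/-- The value list of a permutation. -/
def F (σ : Equiv.Perm (Fin 7)) : List ℕ := pre (vals σ) 7

theorem F_mem (σ : Equiv.Perm (Fin 7)) : F σ ∈ gen 7 [] := by
  refine mem_gen (vals σ) (fun s _ => (σ _).isLt) ?_ 7 0 rfl
  intro s t hs ht h
  have h1 := σ.injective (Fin.ext h)
  have h2 := congrArg Fin.val h1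
  simpa [Fin.ofNat_eq_cast, Fin.val_natCast, Nat.mod_eq_of_lt hs, Nat.mod_eq_of_lt ht] using h2

theorem F_inj : Function.Injective F := by
  intro σ τ h
  unfold F pre at h
  have h1 := List.reverse_injective h
  rw [List.map_inj_left] at h1
  ext x
  have h2 := h1 x.val (List.mem_range.2 x.isLt)
  unfold vals at h2
  have h3 : Fin.ofNat 7 x.val = x := by
    apply Fin.ext
    rw [Fin.ofNat_eq_cast, Fin.val_natCast, Nat.mod_eq_of_lt x.isLt]
  rw [h3] at h2
  exact h2

theorem count_le (q : List ℕ → Bool) :
    (Finset.univ.filter (fun σ : Equiv.Perm (Fin 7) => q (F σ) = true)).card ≤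
      ((gen 7 []).filter q).length := by
  classical
  refine le_trans ?_ (List.toFinset_card_le _)
  refine Finset.card_le_card_of_injOn F ?_ (F_inj.injOn)
  intro σ hσ
  simp only [Finset.coe_filter, Finset.mem_univ, true_and, Set.mem_ofPred_eq] at hσ
  simp only [List.coe_toFinset, Set.mem_ofPred_eq, List.mem_filter]
  exact ⟨F_mem σ, hσ⟩

/-! ### the poset -/

/-- The ten comparable pairs. -/
def prs : List (Fin 7 × Fin 7) :=
  [(0,3),(0,5),(0,6),(1,4),(1,5),(1,6),(2,3),(2,4),(2,6),(3,6)]

/-- The order relation. -/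
def leB (x y : Fin 7) : Bool := x == y || prs.contains (x, y)

/-- The seven-element poset. -/
@[instance_reducible] def P7 : PartialOrder (Fin 7) where
  le x y := leB x y = true
  lt x y := leB x y = true ∧ ¬ leB y x = true
  lt_iff_le_not_ge := fun _ _ => Iff.rfl
  le_refl := by decide +kernel
  le_trans := by decide +kernel
  le_antisymm := by decide +kernel

theorem lt_iff : ∀ p : Fin 7 × Fin 7, P7.lt p.1 p.2 ↔ p ∈ prs.toFinset := by
  have h : ∀ p : Fin 7 × Fin 7, (leB p.1 p.2 = true ∧ ¬ leB p.2 p.1 = true) ↔ p ∈ prs.toFinset := by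
    decide +kernel
  intro p
  exact h p

/-- The statistic on value lists: `l = [σ 6, ..., σ 0]`. -/
def stat (l : List ℕ) : ℕ :=
  (prs.filter (fun p => decide (l.getD (6 - p.1.val) 0 < l.getD (6 - p.2.val) 0))).length

theorem getD_F (σ : Equiv.Perm (Fin 7)) (x : Fin 7) : (F σ).getD (6 - x.val) 0 = (σ x).val := by
  have h : F σ = [(σ 6).val, (σ 5).val, (σ 4).val, (σ 3).val, (σ 2).val, (σ 1).val, (σ 0).val] := by
    rfl
  rw [h]
  fin_cases x <;> rfl

theorem agree_eq (σ : Equiv.Perm (Fin 7)) : agreeCount P7 σ = stat (F σ) := by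
  classical
  unfold agreeCount stat
  have hnd : (prs.filter (fun p => decide ((F σ).getD (6 - p.1.val) 0 <
      (F σ).getD (6 - p.2.val) 0))).Nodup := List.Nodup.filter _ (by decide +kernel)
  rw [← List.toFinset_card_of_nodup hnd, Nat.card_eq_fintype_card, Fintype.card_subtype]
  congr 1
  ext p
  simp only [Finset.mem_filter, Finset.mem_univ, true_and, List.mem_toFinset, List.mem_filter,
    decide_eq_true_eq, getD_F]
  rw [lt_iff p, List.mem_toFinset]
  rfl

theorem a_eq (i : ℕ) :
    a P7 i = (Finset.univ.filter (fun σ : Equiv.Perm (Fin 7) => (stat (F σ) == i) = true)).card := by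
  classical
  unfold a
  rw [Nat.card_eq_fintype_card, Fintype.card_subtype]
  congr 1
  ext σ
  simp [agree_eq]

theorem a_le (i c : ℕ) (h : ((gen 7 []).filter (fun l => stat l == i)).length = c) :
    a P7 i ≤ c := by
  rw [a_eq, ← h]
  exact count_le (fun l => stat l == i)

theorem a_ge (i c : ℕ) (h : ((gen 7 []).filter (fun l => !(stat l == i))).length + c = 5040) :
    c ≤ a P7 i := by
  rw [a_eq]
  have h1 := count_le (fun l => !(stat l == i))
  have h2 := Finset.card_filter_add_card_filter_not (s := (Finset.univ : Finset (Equiv.Perm (Fin 7))))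
    (fun σ => (stat (F σ) == i) = true)
  have h3 : (Finset.univ : Finset (Equiv.Perm (Fin 7))).card = 5040 := by
    rw [Finset.card_univ, Fintype.card_perm, Fintype.card_fin]
    rfl
  have h4 : (Finset.univ.filter (fun σ : Equiv.Perm (Fin 7) => ¬ ((stat (F σ) == i) = true))).card =
      (Finset.univ.filter (fun σ : Equiv.Perm (Fin 7) => (!(stat (F σ) == i)) = true)).card := by
    congr 1
    ext σ
    simp
  rw [h3, h4] at h2
  omega

theorem a4 : 792 ≤ a P7 4 := a_ge 4 792 (by decide +kernel)

theorem a5 : a P7 5 ≤ 764 := a_le 5 764 (by decide +kernel)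

theorem a6 : 792 ≤ a P7 6 := a_ge 6 792 (by decide +kernel)

theorem numPairs_eq : numPairs P7 = 10 := by
  classical
  unfold numPairs
  rw [Nat.card_eq_fintype_card, Fintype.card_subtype]
  have : (Finset.univ.filter (fun p : Fin 7 × Fin 7 => P7.lt p.1 p.2)) = prs.toFinset := by
    ext p
    simp only [Finset.mem_filter, Finset.mem_univ, true_and]
    exact lt_iff p
  rw [this]
  decide +kernel

/-- The agreement counts of a finite poset need not be unimodal: for an explicit poset on `7`
points with `10` comparable pairs, `a_4 ≥ 792`, `a_5 ≤ 764` and `a_6 ≥ 792`. -/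
theorem result :
    (∃ (n : ℕ) (P : PartialOrder (Fin n)) (h i j : ℕ),
      h < i ∧ i < j ∧ j ≤ numPairs P ∧ a P i < a P h ∧ a P i < a P j) ∧
    ¬ ∀ (n : ℕ) (P : PartialOrder (Fin n)), Unimodal (a P) (numPairs P) := by
  have h4 := a4
  have h5 := a5
  have h6 := a6
  constructor
  · exact ⟨7, P7, 4, 5, 6, by norm_num, by norm_num, by rw [numPairs_eq]; norm_num, by omega,
      by omega⟩
  · intro H
    obtain ⟨j, hj, hup, hdown⟩ := H 7 P7
    rw [numPairs_eq] at hj hdown
    by_cases h : 4 < j
    · have := hup 4 h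
      norm_num at this
      omega
    · have := hdown 5 (by omega) (by norm_num)
      norm_num at this
      omega

end Pool.Agent.Results.MP_880652_co.Main
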